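import Pool.Agent.Helper56_MG.Stmts2
import Pool.Agent.Helper92_FL.R7

/-!
# MG part 2: JCOUNT, counting conditions and names with bounded support
-/

open Set Cardinal

namespace Pool.Agent.MG.H77

open Pool.Agent.FL (Ix)

/-- extension by the zero sequence -/
noncomputable def extP (J : Set JJ) (z : J → R) : Pt JJ := by
  classical exact fun i => if h : i ∈ J then z ⟨i, h⟩ else fun _ => false

theorem measurable_extP (J : Set JJ) : Measurable (extP J) := by
  rw [measurable_pi_iff]
  intro i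
  by_cases h : i ∈ J
  · have : (fun z : J → R => extP J z i) = fun z => z ⟨i, h⟩ := by
      funext z; simp [extP, h]
    rw [this]
    exact measurable_pi_apply _
  · have : (fun z : J → R => extP J z i) = fun _ => fun _ => false := by
      funext z; simp [extP, h]
    rw [this]
    exact measurable_const

theorem extP_restrict (J : Set JJ) (y : Pt JJ) (i : JJ) (hi : i ∈ J) :
    extP J (fun j => y j.1) i = y i := by
  simp [extP, hi]

theorem card_ms (J : Set JJ) (hJ : #J ≤ Cardinal.continuum) :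
    #{s : Set (J → R) // MeasurableSet s} ≤ Cardinal.continuum := by
  have h1 := FL.H92.card_meas_le (α := J → R) (κ := J) (fun _ => R) hJ (fun j z => z j)
  have h2 : (⨆ k : J, (inferInstance : MeasurableSpace R).comap (fun z : J → R => z k)) =
      MeasurableSpace.pi := rfl
  rw [h2] at h1
  exact h1

theorem card_Iio (γ : Ix) : #(Set.Iio γ) ≤ Cardinal.continuum := FL.H92.card_Iio_le _ γ

/-- the coordinates below `s γ` -/
theorem card_Iio_s (γ : Ix) : #(Set.Iio (JJ.s γ)) ≤ Cardinal.continuum := by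
  have h1 : #(Bool × Set.Iio γ) ≤ Cardinal.continuum := by
    rw [mk_prod, lift_id, lift_id]
    refine (mul_le_mul' (show #Bool ≤ Cardinal.continuum from ?_) (card_Iio γ)).trans (by simp)
    rw [mk_bool]
    exact (nat_lt_continuum 2).le
  refine le_trans ?_ h1
  have hf : ∀ i : Set.Iio (JJ.s γ), ∃ c : Bool × Set.Iio γ,
      i.1 = (if c.1 then JJ.m c.2.1 else JJ.s c.2.1) := by
    rintro ⟨i, hi⟩
    cases i with
    | s k => exact ⟨(false, ⟨k, JJ.s_lt_s.1 hi⟩), by simp⟩
    | m k => exact ⟨(true, ⟨k, JJ.m_lt_s.1 hi⟩), by simp⟩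
    | t n => exact absurd hi (by simp)
  choose f hf using hf
  refine mk_le_of_injective (f := f) fun a b hab => Subtype.ext ?_
  rw [hf a, hf b, hab]

theorem cond_ext {r r' : Cond JJ} (hS : r.S = r'.S) (hT : r.T = r'.T) : r = r' := by
  cases r; cases r'
  simp only at hS hT
  subst hS hT
  rfl

open Classical in
/-- enumeration of the support -/
noncomputable def enm (γ : Ix) (r : {r : Cond JJ // r.Below (JJ.s γ)}) (n : ℕ) :
    Option (Set.Iio (JJ.s γ)) :=
  letI := r.1.scount.toEncodable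
  (Encodable.decode (α := r.1.S) n).map (fun s => ⟨s.1, r.2 s.1 s.2⟩)

theorem mem_iff (γ : Ix) (r : {r : Cond JJ // r.Below (JJ.s γ)}) (i : Set.Iio (JJ.s γ)) :
    i.1 ∈ r.1.S ↔ ∃ n, enm γ r n = some i := by
  let _ := r.1.scount.toEncodable
  constructor
  · intro h
    refine ⟨Encodable.encode (⟨i.1, h⟩ : r.1.S), ?_⟩
    rw [enm, Encodable.encodek]
    rfl
  · rintro ⟨n, hn⟩
    rw [enm, Option.map_eq_some_iff] at hn
    obtain ⟨s, -, hs⟩ := hn
    rw [← hs]
    exact s.2

theorem count_conds (γ : Ix) :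
    #{r : Cond JJ // r.Below (JJ.s γ)} ≤ Cardinal.continuum := by
  let MS := {s : Set (Set.Iio (JJ.s γ) → R) // MeasurableSet s}
  have hMS : #MS ≤ Cardinal.continuum := card_ms _ (card_Iio_s γ)
  have hcode : #((ℕ → Option (Set.Iio (JJ.s γ))) × (ℕ × Node → MS)) ≤ Cardinal.continuum := by
    rw [mk_prod, lift_id, lift_id]
    have h1 : #(ℕ → Option (Set.Iio (JJ.s γ))) ≤ Cardinal.continuum := by
      rw [← power_def, mk_nat, mk_option]
      refine (power_le_power_right ?_).trans (le_of_eq continuum_power_aleph0)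
      exact (add_le_add (card_Iio_s γ) (by simpa using (nat_lt_continuum 1).le)).trans (by simp)
    have h2 : #(ℕ × Node → MS) ≤ Cardinal.continuum := by
      rw [← power_def]
      have : #(ℕ × Node) = ℵ₀ := mk_eq_aleph0 _
      rw [this]
      exact (power_le_power_right hMS).trans (le_of_eq continuum_power_aleph0)
    exact (mul_le_mul' h1 h2).trans (by simp)
  refine le_trans ?_ hcode
  have hms : ∀ (r : {r : Cond JJ // r.Below (JJ.s γ)}) (n : ℕ) (s : Node),
      MeasurableSet {z : Set.Iio (JJ.s γ) → R | ∃ i, enm γ r n = some i ∧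
        s ∈ r.1.T i.1 (extP _ z)} := by
    intro r n s
    rcases h : enm γ r n with _ | i
    · simp
    · have : {z : Set.Iio (JJ.s γ) → R | ∃ i', some i = some i' ∧
          s ∈ r.1.T i'.1 (extP _ z)} =
          (fun z => r.1.T i.1 (extP _ z)) ⁻¹' {T | s ∈ T} := by
        ext z
        simp
      rw [this]
      exact ((r.1.meas i.1).comp (measurable_extP _)) (measurableSet_setOfPred.2
        (measurable_set_mem s))
  refine mk_le_of_injective (f := fun r => (enm γ r, fun x => ⟨_, hms r x.1 x.2⟩)) ?_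
  intro r r' h
  have he : enm γ r = enm γ r' := congrArg Prod.fst h
  have hg := congrArg Prod.snd h
  have hS : r.1.S = r'.1.S := by
    ext i
    by_cases hi : i ∈ Set.Iio (JJ.s γ)
    · have h1 := mem_iff γ r ⟨i, hi⟩
      have h2 := mem_iff γ r' ⟨i, hi⟩
      rw [he] at h1
      exact h1.trans h2.symm
    · exact ⟨fun h => absurd (r.2 i h) hi, fun h => absurd (r'.2 i h) hi⟩
  apply Subtype.ext
  refine cond_ext hS ?_
  funext i y
  by_cases hi : i ∈ r.1.S
  · have hi' : i ∈ r'.1.S := hS ▸ hi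
    have hib : i < JJ.s γ := r.2 i hi
    obtain ⟨n, hn⟩ := (mem_iff γ r ⟨i, hib⟩).1 hi
    have hn' : enm γ r' n = some ⟨i, hib⟩ := by rw [← he]; exact hn
    have hy : r.1.T i y = r.1.T i (extP (Set.Iio (JJ.s γ)) (fun j => y j.1)) :=
      r.1.dep i _ _ fun j hj => (extP_restrict _ y j (show j < JJ.s γ from lt_trans hj hib)).symm
    have hy' : r'.1.T i y = r'.1.T i (extP (Set.Iio (JJ.s γ)) (fun j => y j.1)) :=
      r'.1.dep i _ _ fun j hj => (extP_restrict _ y j (show j < JJ.s γ from lt_trans hj hib)).symm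
    rw [hy, hy']
    ext s
    have h1 := congrArg Subtype.val (congrFun hg (n, s))
    have h2 := congrArg (fun A : Set (Set.Iio (JJ.s γ) → R) => (fun j => y j.1) ∈ A) h1
    have h3 : (∃ i', enm γ r n = some i' ∧ s ∈ r.1.T i'.1 (extP (Set.Iio (JJ.s γ))
        fun j => y j.1)) ↔
      (∃ i', enm γ r' n = some i' ∧ s ∈ r'.1.T i'.1 (extP (Set.Iio (JJ.s γ)) fun j => y j.1)) :=
      iff_of_eq h2
    rw [hn, hn'] at h3
    simpa using h3
  · rw [r.1.full' i hi, r'.1.full' i (hS ▸ hi)]

theorem count_funs (γ : Ix) :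
    #{f : PJ → ℕ → ℕ // Measurable f ∧ Dep (JJ.s γ) f} ≤ Cardinal.continuum := by
  let MS := {s : Set (Set.Iio (JJ.s γ) → R) // MeasurableSet s}
  have hMS : #MS ≤ Cardinal.continuum := card_ms _ (card_Iio_s γ)
  have hcode : #(ℕ × ℕ → MS) ≤ Cardinal.continuum := by
    rw [← power_def]
    have : #(ℕ × ℕ) = ℵ₀ := mk_eq_aleph0 _
    rw [this]
    exact (power_le_power_right hMS).trans (le_of_eq continuum_power_aleph0)
  refine le_trans ?_ hcode
  have hms : ∀ (f : {f : PJ → ℕ → ℕ // Measurable f ∧ Dep (JJ.s γ) f}) (n m : ℕ),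
      MeasurableSet {z : Set.Iio (JJ.s γ) → R | f.1 (extP _ z) n = m} := by
    intro f n m
    exact (((measurable_pi_apply n).comp f.2.1).comp (measurable_extP _))
      (measurableSet_singleton m)
  refine mk_le_of_injective (f := fun f x => ⟨_, hms f x.1 x.2⟩) ?_
  intro f g h
  apply Subtype.ext
  funext y n
  have hy : ∀ k : {f : PJ → ℕ → ℕ // Measurable f ∧ Dep (JJ.s γ) f},
      k.1 y = k.1 (extP (Set.Iio (JJ.s γ)) (fun j => y j.1)) := fun k =>
    k.2.2 _ _ fun j hj => (extP_restrict _ y j hj).symm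
  rw [hy f, hy g]
  have h1 := congrArg Subtype.val (congrFun h (n, f.1 (extP (Set.Iio (JJ.s γ))
    (fun j => y j.1)) n))
  have h2 := congrArg (fun A : Set (Set.Iio (JJ.s γ) → R) => (fun j => y j.1) ∈ A) h1
  have h3 : (f.1 (extP (Set.Iio (JJ.s γ)) (fun j => y j.1)) n =
      f.1 (extP (Set.Iio (JJ.s γ)) (fun j => y j.1)) n) ↔
      (g.1 (extP (Set.Iio (JJ.s γ)) (fun j => y j.1)) n =
      f.1 (extP (Set.Iio (JJ.s γ)) (fun j => y j.1)) n) := iff_of_eq h2
  exact (h3.1 rfl).symm

/-- JCOUNT -/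
theorem jcount : CountStmt := fun γ => ⟨count_conds γ, count_funs γ, card_Iio γ⟩

end Pool.Agent.MG.H77
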