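import Pool.Agent.Helper56_MG.Stmts2

/-!
# MG part 2: JDEC, JBR, JREAP
-/

open Set

namespace Pool.Agent.MG.H77

theorem jdec (hProp : PropStmt JJ) : JDecStmt := by
  intro r A hA
  obtain ⟨q, h1, h2, h3⟩ := (hProp te).2.1 r.1 r.2 A hA.1 hA.2
  refine ⟨⟨q, h2⟩, h1, h3.imp (fun h => h) fun h => ?_⟩
  exact fun y hy hA => (Set.disjoint_left.1 h) hy hA

theorem jbr (hProp : PropStmt JJ) : JBrStmt := by
  intro r D hopen hdense
  obtain ⟨q, h1, h2, h3⟩ := (hProp te).1 r.1 r.2 (fun n => {d | ∃ h : VB te d, (⟨d, h⟩ : PP) ∈ D n})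
    (by
      intro n q hq hle
      obtain ⟨d, hd, hdq⟩ := hdense n ⟨q, hq⟩ hle
      exact ⟨d.1, ⟨d.2, hd⟩, d.2, hdq⟩)
  refine ⟨⟨q, h2⟩, h1, fun i => ?_⟩
  obtain ⟨E, hE, hE1, hE2⟩ := h3 i
  refine ⟨Subtype.val ⁻¹' E, hE.preimage Subtype.val_injective, ?_, ?_⟩
  · intro d hd
    obtain ⟨h, h'⟩ := (hE1 d.1 hd).1
    exact h'
  · intro y hy
    obtain ⟨d, hd, hyd⟩ := Set.mem_iUnion₂.1 (hE2 hy)
    exact Set.mem_iUnion₂.2 ⟨⟨d, (hE1 d hd).2.1⟩, hd, hyd⟩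

theorem jreap (hRall : RallStmt JJ) : JReapStmt := by
  intro r S hS
  obtain ⟨q, h1, h2, B, -, hB, i, h3⟩ := hRall te r.1 r.2 Set.univ Set.infinite_univ S hS.1 hS.2
  refine ⟨⟨q, h2⟩, h1, B, hB, ?_⟩
  cases i with
  | true =>
    left
    intro z hz n hn
    exact (h3 z hz n hn).2 rfl
  | false =>
    right
    intro z hz
    rw [Set.disjoint_left]
    intro n hn hnS
    exact absurd ((h3 z hz n hn).1 hnS) (by simp)

end Pool.Agent.MG.H77
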